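import Pool.Agent.DFM.Stmts

/-!
# Squad DFM, row CRD (helper30): the cardinality of `El I J`
-/

set_option autoImplicit false

namespace Pool.Agent.DFM.H30

open Pool.Agent.DFM

/-- coding of the elements -/
def code {I J : Type} : El I J → (Finset I ⊕ Unit) ⊕ (Finset J ⊕ (I × J × ℕ))
  | El.low G => Sum.inl (Sum.inl G)
  | El.mid => Sum.inl (Sum.inr ())
  | El.top F => Sum.inr (Sum.inl F)
  | El.ch i j n => Sum.inr (Sum.inr (i, j, n))

theorem code_inj {I J : Type} : Function.Injective (code : El I J → _) := by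
  intro x y h
  cases x <;> cases y <;> simp_all [code]

/-- **CRD** -/
theorem crd : CrdStmt := by
  intro I J _ _
  have h1 : Cardinal.aleph0 ≤ Cardinal.mk I := Cardinal.aleph0_le_mk I
  have h2 : Cardinal.aleph0 ≤ Cardinal.mk J := Cardinal.aleph0_le_mk J
  have h3 : Cardinal.aleph0 ≤ max (Cardinal.mk I) (Cardinal.mk J) := le_trans h1 (le_max_left _ _)
  refine le_trans (Cardinal.mk_le_of_injective code_inj) ?_
  rw [Cardinal.mk_sum, Cardinal.mk_sum, Cardinal.mk_sum]
  simp only [Cardinal.lift_id, Cardinal.mk_finset_of_infinite, Cardinal.mk_prod,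
    Cardinal.mk_fintype, Fintype.card_unit, Nat.cast_one, Cardinal.mk_nat]
  refine Cardinal.add_le_of_le h3 ?_ ?_
  · exact Cardinal.add_le_of_le h3 (le_max_left _ _) (le_trans Cardinal.one_le_aleph0 h3)
  · refine Cardinal.add_le_of_le h3 (le_max_right _ _) ?_
    refine Cardinal.mul_le_of_le h3 (le_max_left _ _) ?_
    exact Cardinal.mul_le_of_le h3 (le_max_right _ _) h3

end Pool.Agent.DFM.H30

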